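import Pool.Agent.RieszDisc.Statement

/-!
# A Rajchman probability measure whose spectrum on `H^1_0` is the closed unit disc
-/

namespace Pool.Agent.Results.MP_ab3f56_an.RieszFullDisc

open MeasureTheory Pool.Agent.RieszDisc

/-- There is a Rajchman probability measure on the circle whose convolution operator on `H^1_0`
has spectrum equal to the closed unit disc. -/
theorem result : ∃ μ : Measure Circ, IsProbabilityMeasure μ ∧ IsRajchman μ ∧
    ∃ T : Hardy →L[ℂ] Hardy, IsConvolutionBy μ T ∧ opSpectrum T = Metric.closedBall 0 1 := by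
  obtain ⟨μ, hμ, hR, hspec⟩ := main
  exact ⟨μ, hμ, hR, convOp μ, fun f => convOp_apply (μ := μ) f, hspec⟩

end Pool.Agent.Results.MP_ab3f56_an.RieszFullDisc
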